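import Pool.Agent.Lib_helper29.TD.Main

/-!
# MP_b46f0e_co: trees with `χ_td(T) = γ_t(T) + 2`
-/

namespace Pool.Agent.Results.MP_b46f0e_co.LabelCharacterisation

open Helper29TD

/-- Structural characterisation of the nontrivial trees `T` with `χ_td(T) = γ_t(T) + 2`:
they are exactly the trees that admit no good labelling `(A, Q)`. -/
theorem result {V : Type*} [Fintype V] (T : SimpleGraph V) (hT : T.IsTree)
    (hV : 2 ≤ Fintype.card V) :
    totalDominatorChromaticNumber T = totalDominationNumber T + 2 ↔
      ¬ ∃ A Q : Finset V, GoodLabelling T A Q :=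
  main hT hV

end Pool.Agent.Results.MP_b46f0e_co.LabelCharacterisation
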